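import Pool.Agent.Q132.EP.St
import Pool.Agent.Q41.PT.Primes

set_option autoImplicit false

/-!
# Task APL of project EP (helper132): primes in the odd classes modulo the powers of two up to `log x`
-/

namespace Pool.Agent.Q129.EP

open Finset Filter Topology Pool.Agent.Q132.EP

/-- **Task APL.** -/
theorem apl : S_APL := by
  obtain ⟨x0, h⟩ := Pool.Agent.H387R2.Uni.siegel
  obtain ⟨n1, hn1⟩ := (Metric.tendsto_atTop.1 Pool.Agent.Q41.PT.pi_tend) (1 / 4) (by norm_num)
  obtain ⟨n2, hn2⟩ := eventually_atTop.1 (Pool.Agent.Q41.PT.log_tend.eventually_ge_atTop (2 : ℝ))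
  refine ⟨max (max x0 1) (max n1 n2), fun x hx b a hb hbx ha hodd => ?_⟩
  have g0 : x0 ≤ x := (le_max_left _ _).trans ((le_max_left _ _).trans hx)
  have g1 : 1 ≤ x := (le_max_right _ _).trans ((le_max_left _ _).trans hx)
  have g2 : n1 ≤ x := (le_max_left _ _).trans ((le_max_right _ _).trans hx)
  have g3 : n2 ≤ x := (le_max_right _ _).trans ((le_max_right _ _).trans hx)
  have hL := hn2 x g3
  have hx0 : (0 : ℝ) < x := by exact_mod_cast g1
  have k1 := hn1 x g2
  rw [Real.dist_eq] at k1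
  have k2 := (abs_lt.1 k1).1
  have hq : (((2 ^ b : ℕ) : ℕ) : ℝ) ≤ Real.log x ^ 2 := by
    push_cast
    nlinarith
  have hcop : a.Coprime (2 ^ b) := by
    apply Nat.Coprime.pow_right
    exact (Nat.Prime.coprime_iff_not_dvd Nat.prime_two).2 (by omega) |>.symm
  have h8 := h x g0 (2 ^ b) Nat.one_le_two_pow hq a ha hcop
  have htot : (Nat.totient (2 ^ b) : ℝ) = 2 ^ b / 2 := by
    rw [Nat.totient_prime_pow Nat.prime_two hb]
    obtain ⟨b, rfl⟩ : ∃ c, b = c + 1 := ⟨b - 1, by omega⟩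
    rw [Nat.add_sub_cancel]
    push_cast
    rw [pow_succ]
    ring
  rw [htot] at h8
  have h9 := (abs_le.1 h8).1
  have hcard : H343E.piAP x (2 ^ b) a =
      (((Icc 1 x).filter (fun p => p.Prime ∧ p % 2 ^ b = a)).card : ℝ) := by
    unfold H343E.piAP
    congr 2
    ext p
    simp only [mem_filter, Nat.ModEq, Nat.mod_eq_of_lt ha]
  rw [← hcard]
  have hB : (0 : ℝ) < 2 ^ b := by positivity
  have hL0 : 0 < Real.log (x : ℝ) := by linarith
  -- the main term
  have m1 : 3 / 4 * (x / Real.log x) ≤ H343E.pi1 x := by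
    have h3 : 3 / 4 < H343E.pi1 x * Real.log x / x := by linarith
    rw [lt_div_iff₀ hx0] at h3
    rw [mul_div_assoc', div_le_iff₀ hL0]
    linarith
  have m2 : 3 / 2 * (x / (2 ^ b * Real.log x)) ≤ H343E.pi1 x / (2 ^ b / 2) := by
    rw [le_div_iff₀ (by positivity)]
    calc 3 / 2 * (x / (2 ^ b * Real.log x)) * (2 ^ b / 2) = 3 / 4 * (x / Real.log x) := by
          field_simp
          ring
      _ ≤ _ := m1
  have m3 : (x : ℝ) / Real.log x ^ 6 ≤ 1 / 2 * (x / (2 ^ b * Real.log x)) := by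
    rw [div_le_iff₀ (by positivity)]
    have h4 : 2 * (2 ^ b * Real.log x) ≤ Real.log x ^ 6 := by
      have h5 : 2 ^ b * Real.log x ≤ Real.log x ^ 2 := by nlinarith
      have h6 : 2 * Real.log x ^ 2 ≤ Real.log x ^ 3 := by nlinarith [sq_nonneg (Real.log x)]
      have h7 : Real.log (x : ℝ) ^ 3 ≤ Real.log x ^ 6 := pow_le_pow_right₀ (by linarith) (by norm_num)
      linarith
    calc (x : ℝ) = 1 / 2 * (x / (2 ^ b * Real.log x)) * (2 * (2 ^ b * Real.log x)) := by
          field_simp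
      _ ≤ _ := mul_le_mul_of_nonneg_left h4 (by positivity)
  linarith

end Pool.Agent.Q129.EP
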