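import Pool.Agent.Q132.EP.St
import Pool.Agent.H397R2.PP.TH

set_option autoImplicit false

/-!
# Task JOD of project EP (helper132): the number of pentagonal numbers is odd two thirds of the time
-/

namespace Pool.Agent.Q129.EP

open Finset Pool.Agent.Q132.EP
open Pool.Agent.H397R2.PP.TH (isPent pent_eq coeff_ind pent_sq)

lemma two_a (l : ℕ) : 2 * (l * (3 * l + 1) / 2) = l * (3 * l + 1) := by
  have h : 2 ∣ l * (3 * l + 1) := by
    rcases Nat.even_or_odd l with h | h
    · exact (even_iff_two_dvd.1 h).mul_right _
    · obtain ⟨k, rfl⟩ := h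
      exact Dvd.dvd.mul_left ⟨3 * k + 2, by ring⟩ _
  exact Nat.mul_div_cancel' h

lemma two_b (l : ℕ) : 2 * ((l + 1) * (3 * l + 2) / 2) = (l + 1) * (3 * l + 2) := by
  have h : 2 ∣ (l + 1) * (3 * l + 2) := by
    rcases Nat.even_or_odd l with h | h
    · obtain ⟨k, rfl⟩ := h
      exact Dvd.dvd.mul_left ⟨3 * k + 1, by ring⟩ _
    · obtain ⟨k, rfl⟩ := h
      exact Dvd.dvd.mul_right ⟨k + 1, by ring⟩ _
  exact Nat.mul_div_cancel' h

open Classical in
/-- the pentagonal numbers up to `s` -/
lemma pent_filter (l s : ℕ) (h1 : l * (3 * l + 1) / 2 ≤ s) (h2 : s < (l + 1) * (3 * l + 2) / 2) :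
    ((range (s + 1)).filter isPent).card = 2 * l + 1 := by
  have ha := two_a l
  have hb := two_b l
  have e : (range (s + 1)).filter isPent = (Icc (-(l : ℤ)) l).image pentagonal := by
    ext v
    rw [mem_filter, mem_range, mem_image]
    constructor
    · rintro ⟨hv, j, hj⟩
      refine ⟨j, ?_, hj.symm⟩
      have h3 := pent_sq j
      rw [← hj] at h3
      have hv' : (v : ℤ) ≤ s := by omega
      have hb' : (2 : ℤ) * (((l + 1) * (3 * l + 2) / 2 : ℕ) : ℤ) = (l + 1) * (3 * l + 2) := by
        exact_mod_cast hb
      have h2' : (s : ℤ) < (((l + 1) * (3 * l + 2) / 2 : ℕ) : ℤ) := by exact_mod_cast h2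
      rw [mem_Icc]
      constructor
      · by_contra hc
        push Not at hc
        have h5 : j ≤ -(l : ℤ) - 1 := by omega
        nlinarith
      · by_contra hc
        push Not at hc
        have h5 : (l : ℤ) + 1 ≤ j := by omega
        nlinarith
    · rintro ⟨j, hj, rfl⟩
      refine ⟨?_, j, rfl⟩
      rw [mem_Icc] at hj
      have h3 := pent_sq j
      have ha' : (2 : ℤ) * ((l * (3 * l + 1) / 2 : ℕ) : ℤ) = l * (3 * l + 1) := by
        exact_mod_cast ha
      have h1' : ((l * (3 * l + 1) / 2 : ℕ) : ℤ) ≤ (s : ℤ) := by exact_mod_cast h1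
      have h6 : (pentagonal j : ℤ) ≤ s := by nlinarith [hj.1, hj.2]
      have h7 : pentagonal j ≤ s := by exact_mod_cast h6
      omega
  rw [e, card_image_of_injOn, Int.card_Icc]
  · omega
  · intro i _ j _ hij
    have hi := pent_sq i
    have hj := pent_sq j
    rw [show pentagonal i = pentagonal j from hij] at hi
    have h8 : (6 * i - 1) ^ 2 = (6 * j - 1) ^ 2 := by rw [← hi, ← hj]
    rcases sq_eq_sq_iff_eq_or_eq_neg.1 h8 with h9 | h9
    · omega
    · omega

lemma Jm_eq_one (M n l : ℕ) (h1 : l * (3 * l + 1) / 2 ≤ n / M)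
    (h2 : n / M < (l + 1) * (3 * l + 2) / 2) : Jm M n = 1 := by
  classical
  unfold Jm
  rw [pent_eq]
  have e : ∑ v ∈ range (n / M + 1), PowerSeries.coeff v (Pool.Agent.H397R2.PP.TH.ind isPent) =
      ((((range (n / M + 1)).filter isPent).card : ℕ) : ZMod 2) := by
    rw [card_filter]
    push_cast
    apply sum_congr rfl
    intro v _
    rw [coeff_ind]
  rw [e, pent_filter l _ h1 h2]
  push_cast
  have h3 : (2 : ZMod 2) = 0 := rfl
  rw [h3]
  ring

/-- **Task JOD.** -/
theorem jod : S_JOD := by
  intro M L Y hM hY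
  have key : ∀ L : ℕ, M * L ^ 2 ≤ ((range (M * (L * (3 * L - 1) / 2))).filter
      (fun n => Jm M n = 1)).card := by
    intro L
    induction L with
    | zero => simp
    | succ L ih =>
      have ha := two_a L
      have hb := two_b L
      set a := L * (3 * L + 1) / 2 with hadef
      set b := (L + 1) * (3 * L + 2) / 2 with hbdef
      have hb2 : (L + 1) * (3 * (L + 1) - 1) / 2 = b := by
        rw [hbdef]
        congr 1
      rw [hb2]
      set c := L * (3 * L - 1) / 2 with hcdef
      have hca : c ≤ a := by
        rw [hcdef, hadef]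
        apply Nat.div_le_div_right
        exact Nat.mul_le_mul_left _ (by omega)
      have hab : b = a + (2 * L + 1) := by nlinarith
      have hsub : (range (M * c)).filter (fun n => Jm M n = 1) ∪ Ico (M * a) (M * b) ⊆
          (range (M * b)).filter (fun n => Jm M n = 1) := by
        intro n hn
        rw [mem_union, mem_filter, mem_range, mem_Ico] at hn
        rw [mem_filter, mem_range]
        rcases hn with ⟨h1, h2⟩ | ⟨h1, h2⟩
        · refine ⟨lt_of_lt_of_le h1 (Nat.mul_le_mul_left _ (by omega)), h2⟩
        · refine ⟨h2, Jm_eq_one M n L ?_ ?_⟩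
          · rw [Nat.le_div_iff_mul_le (by omega)]
            rw [mul_comm]
            exact h1
          · rw [Nat.div_lt_iff_lt_mul (by omega)]
            rw [mul_comm]
            exact h2
      have hdisj : Disjoint ((range (M * c)).filter (fun n => Jm M n = 1))
          (Ico (M * a) (M * b)) := by
        rw [Finset.disjoint_left]
        intro n h1 h2
        rw [mem_filter, mem_range] at h1
        rw [mem_Ico] at h2
        have h3 : M * c ≤ M * a := Nat.mul_le_mul_left _ hca
        omega
      calc M * (L + 1) ^ 2 = M * L ^ 2 + M * (2 * L + 1) := by ring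
        _ ≤ ((range (M * c)).filter (fun n => Jm M n = 1)).card + (Ico (M * a) (M * b)).card := by
            rw [Nat.card_Ico, hab]
            have : M * (a + (2 * L + 1)) - M * a = M * (2 * L + 1) := by
              rw [Nat.mul_add]
              omega
            rw [this]
            omega
        _ = ((range (M * c)).filter (fun n => Jm M n = 1) ∪ Ico (M * a) (M * b)).card :=
            (card_union_of_disjoint hdisj).symm
        _ ≤ _ := card_le_card hsub
  refine (key L).trans (card_le_card ?_)
  intro n hn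
  rw [mem_filter, mem_range] at hn ⊢
  exact ⟨lt_of_lt_of_le hn.1 hY, hn.2⟩

end Pool.Agent.Q129.EP
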