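import Pool.Agent.Q132.EP.St
import Pool.Agent.H307R2.OP.PC
import Pool.Agent.Helper256.KM.Mertens

set_option autoImplicit false

/-!
# Task MAS of project EP (helper132): Mertens' theorem for the primes, and a bound for `p ≡ 5 (mod 8)`
-/

namespace Pool.Agent.Q129.EP

open Finset Pool.Agent.Q132.EP
open Pool.Agent.H307R2.OP (PB)

lemma V_eq (y z : ℕ) (hyz : y ≤ z) : V y z =
    ∑ p ∈ (Icc 1 z).filter Nat.Prime, (1 : ℝ) / p - ∑ p ∈ (Icc 1 y).filter Nat.Prime, (1 : ℝ) / p := by
  have hdisj : Disjoint ((Icc 1 y).filter Nat.Prime) ((Ioc y z).filter Nat.Prime) := by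
    rw [Finset.disjoint_left]
    intro p h1 h2
    have h3 := (mem_Icc.1 (mem_filter.1 h1).1).2
    have h4 := (mem_Ioc.1 (mem_filter.1 h2).1).1
    omega
  have hun : (Icc 1 z).filter Nat.Prime = (Icc 1 y).filter Nat.Prime ∪ (Ioc y z).filter Nat.Prime := by
    ext p
    simp only [mem_union, mem_filter, mem_Icc, mem_Ioc]
    constructor
    · rintro ⟨⟨h1, h2⟩, h3⟩
      rcases le_or_gt p y with h | h
      · exact Or.inl ⟨⟨h1, h⟩, h3⟩
      · exact Or.inr ⟨⟨h, h2⟩, h3⟩
    · rintro (⟨⟨h1, h2⟩, h3⟩ | ⟨⟨h1, h2⟩, h3⟩)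
      · exact ⟨⟨h1, h2.trans hyz⟩, h3⟩
      · exact ⟨⟨by omega, h2⟩, h3⟩
  unfold V
  rw [hun, sum_union hdisj]
  ring

lemma harm_log (s : ℕ) (hs : 1 ≤ s) : ∀ t : ℕ, s ≤ t →
    Real.log t - Real.log s ≤ ∑ i ∈ Ico s t, 1 / (i : ℝ) := by
  intro t ht
  induction t, ht using Nat.le_induction with
  | base => simp
  | succ t ht ih =>
    rw [sum_Ico_succ_top ht]
    have ht0 : (0 : ℝ) < t := by exact_mod_cast (by omega : 0 < t)
    have h1 : Real.log ((t + 1 : ℕ) : ℝ) - Real.log t ≤ 1 / (t : ℝ) := by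
      rw [← Real.log_div (by positivity) ht0.ne']
      have h2 := Real.log_le_sub_one_of_pos (x := ((t + 1 : ℕ) : ℝ) / t) (by positivity)
      have h3 : ((t + 1 : ℕ) : ℝ) / t - 1 = 1 / (t : ℝ) := by
        push_cast
        field_simp
        ring
      linarith
    linarith

lemma blocks_le (y z s t : ℕ) (hy : y ≤ 2 ^ s) (hz : 2 ^ t ≤ z) :
    ∑ i ∈ Ico s t, ∑ p ∈ PB i 5, (1 : ℝ) / p ≤ S5 y z := by
  have hdis : ∀ i j : ℕ, i < j → Disjoint (PB i 5) (PB j 5) := by
    intro i j hij
    rw [Finset.disjoint_left]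
    intro p h1 h2
    have h3 := (mem_Ioc.1 (mem_filter.1 h1).1).2
    have h4 := (mem_Ioc.1 (mem_filter.1 h2).1).1
    have h5 : 2 ^ (i + 1) ≤ 2 ^ j := Nat.pow_le_pow_right (by norm_num) (by omega)
    omega
  rw [← sum_biUnion]
  · unfold S5
    apply sum_le_sum_of_subset_of_nonneg
    · intro p hp
      rw [mem_biUnion] at hp
      obtain ⟨i, hi, hp⟩ := hp
      rw [mem_Ico] at hi
      unfold PB at hp
      rw [mem_filter, mem_Ioc] at hp
      unfold Q5
      rw [mem_filter, mem_Ioc]
      have h5 : 2 ^ (i + 1) ≤ 2 ^ t := Nat.pow_le_pow_right (by norm_num) (by omega)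
      have h6 : 2 ^ s ≤ 2 ^ i := Nat.pow_le_pow_right (by norm_num) hi.1
      exact ⟨⟨by omega, by omega⟩, hp.2⟩
    · intro p _ _
      positivity
  · intro i _ j _ hij
    rcases lt_or_gt_of_ne hij with h | h
    · exact hdis i j h
    · exact (hdis j i h).symm

/-- **Task MAS.** -/
theorem mas : S_MAS := by
  obtain ⟨C0, hC0⟩ := Pool.Agent.Helper256.KM.mertens_inv
  obtain ⟨i0, hmass⟩ := Pool.Agent.H307R2.OP.pc.mass
  have hC00 : 0 ≤ C0 := (abs_nonneg _).trans (hC0 3 le_rfl)
  have hl2 : 0 < Real.log 2 := Real.log_pos (by norm_num)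
  have hli : 0 ≤ Real.log (3 + i0 : ℝ) := Real.log_nonneg (by
    have : (0 : ℝ) ≤ i0 := Nat.cast_nonneg _
    linarith)
  refine ⟨2 * C0 + Real.log 2 + Real.log (3 + i0) + 1, by positivity, ?_⟩
  intro y z hy hyz
  have hz : 3 ≤ z := hy.trans hyz
  have hy0 : (0 : ℝ) < y := by exact_mod_cast (by omega : 0 < y)
  have hz0 : (0 : ℝ) < z := by exact_mod_cast (by omega : 0 < z)
  have hlog3 : ∀ n : ℕ, 3 ≤ n → 1 ≤ Real.log n := by
    intro n hn
    have h3 : (3 : ℝ) ≤ n := by exact_mod_cast hn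
    rw [Real.le_log_iff_exp_le (by linarith)]
    have := Real.exp_one_lt_d9
    linarith
  have hly := hlog3 y hy
  have hlz := hlog3 z hz
  constructor
  · rw [V_eq y z hyz]
    have h1 := abs_le.1 (hC0 z hz)
    have h2 := abs_le.1 (hC0 y hy)
    rw [abs_le]
    constructor <;> linarith [h1.1, h1.2, h2.1, h2.2]
  · set s := max (Nat.clog 2 y) i0 with hs
    set t := Nat.log 2 z with ht
    have hclog : 1 ≤ Nat.clog 2 y := Nat.clog_pos (by norm_num) (by omega)
    have hs1 : 1 ≤ s := hclog.trans (le_max_left _ _)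
    have ht1 : 1 ≤ t := Nat.log_pos (by norm_num) (by omega)
    have hys : y ≤ 2 ^ s := (Nat.le_pow_clog (by norm_num) y).trans
      (Nat.pow_le_pow_right (by norm_num) (le_max_left _ _))
    have hzt : 2 ^ t ≤ z := Nat.pow_log_le_self 2 (by omega)
    -- the bound for `log s`
    have hcl : (Nat.clog 2 y : ℝ) ≤ 3 * Real.log y := by
      have h1 : 2 ^ (Nat.clog 2 y - 1) < y := by
        have := Nat.pow_pred_clog_lt_self (b := 2) (by norm_num) (x := y) (by omega)
        exact this
      have h2 : ((Nat.clog 2 y - 1 : ℕ) : ℝ) * Real.log 2 ≤ Real.log y := by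
        rw [← Real.log_pow]
        apply Real.log_le_log (by positivity)
        exact_mod_cast h1.le
      rw [Nat.cast_sub hclog] at h2
      have h3 := Real.log_two_gt_d9
      push_cast at h2
      nlinarith
    have hsl : Real.log s ≤ Real.log (3 + i0) + Real.log (Real.log y) := by
      rw [← Real.log_mul (by positivity) (by positivity)]
      apply Real.log_le_log (by exact_mod_cast hs1)
      have hi : (0 : ℝ) ≤ i0 := Nat.cast_nonneg _
      rw [hs, Nat.cast_max]
      apply max_le <;> nlinarith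
    -- the bound for `log t`
    have htl : Real.log (Real.log z) - Real.log 2 ≤ Real.log t := by
      rw [← Real.log_div (by positivity) (by norm_num)]
      apply Real.log_le_log (by positivity)
      have h1 : z < 2 ^ (t + 1) := Nat.lt_pow_succ_log_self (by norm_num) z
      have h2 : Real.log z ≤ ((t + 1 : ℕ) : ℝ) * Real.log 2 := by
        rw [← Real.log_pow]
        apply Real.log_le_log hz0
        exact_mod_cast h1.le
      have h3 := Real.log_two_lt_d9
      have ht1' : (1 : ℝ) ≤ t := by exact_mod_cast ht1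
      push_cast at h2
      nlinarith
    have hS0 : 0 ≤ S5 y z := sum_nonneg fun p _ => by positivity
    have main : (1 / 6) * (Real.log t - Real.log s) ≤ S5 y z := by
      rcases le_or_gt s t with hst | hst
      · have h1 := harm_log s hs1 t hst
        have h2 : ∑ i ∈ Ico s t, 1 / (6 * (i : ℝ)) ≤ ∑ i ∈ Ico s t, ∑ p ∈ PB i 5, (1 : ℝ) / p := by
          apply sum_le_sum
          intro i hi
          exact hmass i ((le_max_right _ _).trans (mem_Ico.1 hi).1)
        have h3 : ∑ i ∈ Ico s t, 1 / (6 * (i : ℝ)) = (1 / 6) * ∑ i ∈ Ico s t, 1 / (i : ℝ) := by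
          rw [mul_sum]
          apply sum_congr rfl
          intro i _
          rw [one_div_mul_one_div]
        have h4 := blocks_le y z s t hys hzt
        rw [h3] at h2
        linarith
      · have h1 : Real.log t ≤ Real.log s :=
          Real.log_le_log (by exact_mod_cast ht1) (by exact_mod_cast hst.le)
        linarith
    linarith

end Pool.Agent.Q129.EP
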